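import Pool.Agent.H867.FT.Gen5

/-!
# Finiteness of a complete local ring over a power series ring (FIN)
-/

set_option autoImplicit false

namespace Pool.Agent.H199.FT867

open IsLocalRing

/-- membership in `J • ⊤` in a finite free module -/
theorem mem_smul_pi {P : Type} [CommRing P] (J : Ideal P) (n : ℕ) (x : Fin n → P)
    (hx : ∀ i, x i ∈ J) : x ∈ (J • ⊤ : Submodule P (Fin n → P)) := by
  classical
  have e : x = ∑ i, x i • (Pi.single i (1 : P) : Fin n → P) := by
    funext j
    rw [Finset.sum_apply, Finset.sum_eq_single j]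
    · simp
    · intro i _ hij
      simp [Ne.symm hij]
    · intro h
      exact absurd (Finset.mem_univ _) h
  rw [e]
  exact Submodule.sum_mem _ fun i _ => Submodule.smul_mem_smul (hx i) trivial

theorem of_mem_smul_pi {P : Type} [CommRing P] (J : Ideal P) (n : ℕ) (x : Fin n → P)
    (hx : x ∈ (J • ⊤ : Submodule P (Fin n → P))) (i : Fin n) : x i ∈ J := by
  refine Submodule.smul_induction_on hx ?_ ?_
  · intro r hr m _
    rw [Pi.smul_apply, smul_eq_mul]
    exact Ideal.mul_mem_right _ _ hr
  · intro a b ha hb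
    exact J.add_mem ha hb

/-- finite free modules over a complete ring are complete -/
theorem prec_pi {P : Type} [CommRing P] (I : Ideal P) [h : IsPrecomplete I P] (n : ℕ) :
    IsPrecomplete I (Fin n → P) := by
  rw [isPrecomplete_iff]
  intro f hf
  have h1 : ∀ i : Fin n, ∃ L : P, ∀ m, f m i ≡ L [SMOD (I ^ m • ⊤ : Submodule P P)] := by
    intro i
    refine IsPrecomplete.prec h (f := fun m => f m i) ?_
    intro a b hab
    have h2 := hf hab
    rw [SModEq.sub_mem] at h2 ⊢
    have h3 := of_mem_smul_pi _ _ _ h2 i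
    rw [smul_eq_mul, Ideal.mul_top]
    exact h3
  choose L hL using h1
  refine ⟨L, fun m => ?_⟩
  rw [SModEq.sub_mem]
  apply mem_smul_pi
  intro i
  have h2 := hL i m
  rw [SModEq.sub_mem, smul_eq_mul, Ideal.mul_top] at h2
  exact h2

/-- a finitely generated submodule which is everything modulo a power of the maximal ideal -/
theorem exists_sub {P S : Type} [CommRing P] [CommRing S] [IsLocalRing S] [IsNoetherianRing S]
    [Algebra P S] (hs : ∀ s : S, ∃ c : P, s - algebraMap P S c ∈ maximalIdeal S) (r : ℕ) :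
    ∃ N : Submodule P S, N.FG ∧ ∀ s : S, ∃ n ∈ N, s - n ∈ maximalIdeal S ^ r := by
  induction r with
  | zero =>
    refine ⟨⊥, Submodule.fg_bot, fun s => ⟨0, Submodule.zero_mem _, ?_⟩⟩
    rw [pow_zero, Ideal.one_eq_top]
    trivial
  | succ r ih =>
    obtain ⟨N, hN, h⟩ := ih
    obtain ⟨T, hT⟩ := (isNoetherianRing_iff_ideal_fg S).1 inferInstance (maximalIdeal S ^ r)
    refine ⟨N ⊔ Submodule.span P (T : Set S), hN.sup ⟨T, rfl⟩, ?_⟩
    have key : ∀ t ∈ maximalIdeal S ^ r, ∃ n ∈ Submodule.span P (T : Set S),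
        t - n ∈ maximalIdeal S ^ (r + 1) := by
      intro t ht
      rw [← hT] at ht
      induction ht using Submodule.span_induction with
      | mem x hx =>
        refine ⟨x, Submodule.subset_span hx, ?_⟩
        rw [sub_self]
        exact Ideal.zero_mem _
      | zero =>
        refine ⟨0, Submodule.zero_mem _, ?_⟩
        rw [sub_self]
        exact Ideal.zero_mem _
      | add x y _ _ hx hy =>
        obtain ⟨n₁, h₁, e₁⟩ := hx
        obtain ⟨n₂, h₂, e₂⟩ := hy
        refine ⟨n₁ + n₂, Submodule.add_mem _ h₁ h₂, ?_⟩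
        have e : x + y - (n₁ + n₂) = (x - n₁) + (y - n₂) := by ring
        rw [e]
        exact Ideal.add_mem _ e₁ e₂
      | smul a x hx ih =>
        obtain ⟨n, hn, e₁⟩ := ih
        obtain ⟨c, hc⟩ := hs a
        refine ⟨c • n, Submodule.smul_mem _ _ hn, ?_⟩
        have hx' : x ∈ maximalIdeal S ^ r := by rw [← hT]; exact hx
        have e : a • x - c • n = (a - algebraMap P S c) * x + algebraMap P S c * (x - n) := by
          rw [smul_eq_mul, Algebra.smul_def]; ring
        rw [e]
        refine Ideal.add_mem _ ?_ (Ideal.mul_mem_left _ _ e₁)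
        rw [pow_succ']
        exact Ideal.mul_mem_mul hc hx'
    intro s
    obtain ⟨n, hn, h1⟩ := h s
    obtain ⟨n', hn', h2⟩ := key _ h1
    refine ⟨n + n', Submodule.add_mem_sup hn hn', ?_⟩
    have e : s - (n + n') = s - n - n' := by ring
    rw [e]
    exact h2

theorem fin : Pool.Agent.H867.FT.S_FIN := by
  intro k S _ _ _ _ _ m r _ hs hX hr
  set P := MvPowerSeries (Fin m) k with hP
  set I : Ideal P := Ideal.span (Set.range (MvPowerSeries.X : Fin m → P)) with hI
  have hmap : I.map (algebraMap P S) = Ideal.span (Set.range fun i : Fin m =>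
      algebraMap P S (MvPowerSeries.X i)) := by
    rw [hI, Ideal.map_span]
    congr 1
    rw [← Set.range_comp]
    rfl
  have hle : I.map (algebraMap P S) ≤ maximalIdeal S := by
    rw [hmap, Ideal.span_le]
    rintro _ ⟨i, rfl⟩
    exact hX i
  have haus : IsHausdorff I S := IsHausdorff.of_map (M := S) hle
  have hac : IsAdicComplete I P := inferInstance
  have hpre : IsPrecomplete I P := hac.toIsPrecomplete
  obtain ⟨N, hN, h⟩ := exists_sub (P := P) (S := S) (fun s => by
    obtain ⟨c, hc⟩ := hs s
    exact ⟨MvPowerSeries.C c, hc⟩) r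
  obtain ⟨n, f, hf⟩ := (Submodule.fg_iff_exists_fin_linearMap P S).1 hN
  have hpi : IsPrecomplete I (Fin n → P) := prec_pi I n
  apply Module.Finite.of_surjective f
  apply surjective_of_mkQ_comp_surjective (I := I)
  intro y
  obtain ⟨s, rfl⟩ := Submodule.mkQ_surjective _ y
  obtain ⟨t, ht, hst⟩ := h s
  rw [← hf] at ht
  obtain ⟨x, rfl⟩ := ht
  refine ⟨x, ?_⟩
  rw [LinearMap.comp_apply, ← sub_eq_zero, ← map_sub, Submodule.mkQ_apply,
    Submodule.Quotient.mk_eq_zero, Ideal.smul_top_eq_map, Submodule.restrictScalars_mem, hmap,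
    ← Ideal.neg_mem_iff, neg_sub]
  exact hr hst

end Pool.Agent.H199.FT867
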