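import Pool.Agent.H770.GS.UQ

/-!
# UQ16: maximizers have two values (helper199 for helper770, after `exists_ab_min`)
-/

set_option autoImplicit false

open MeasureTheory Set Filter Topology

namespace Pool.Agent.H199.UQ16

open Pool.Agent.H770.GS Pool.Agent.Helper82.GC

theorem even_dup [DecidableEq ℝ] (x : ℝ) (C : List ℝ) : Even ((dup C).count x) := by
  induction C with
  | nil => exact ⟨0, rfl⟩
  | cons c C ih =>
    obtain ⟨m, hm⟩ := ih
    refine ⟨m + (if (c == x) = true then 1 else 0), ?_⟩
    show (c :: c :: dup C).count x = _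
    rw [List.count_cons, List.count_cons, hm]
    ring

theorem odd_list [DecidableEq ℝ] {a q β y : ℝ} {T C : List ℝ} (hT : ∀ c ∈ T, c ≤ y)
    (hy : y < β) : Odd ((a :: a :: q :: q :: (T ++ dup C ++ [β])).count β) := by
  obtain ⟨m, hm⟩ := even_dup β C
  have h1 : T.count β = 0 := List.count_eq_zero_of_not_mem fun h => by
    have := hT β h
    linarith
  refine ⟨(if (a == β) = true then 1 else 0) + (if (q == β) = true then 1 else 0) + m, ?_⟩
  rw [List.count_cons, List.count_cons, List.count_cons, List.count_cons, List.count_append,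
    List.count_append, h1, hm, List.count_singleton_self]
  ring

theorem twoval : S_twoval := by
  intro _ OD H r k L hr hr3 hM hso
  have hr2 : r ≤ 2 := by nlinarith
  obtain ⟨hlen, hsq, hnn, hmax⟩ := hM
  obtain ⟨C0, T, hCT, hT1⟩ := (OD r (k + 2) L hr hr2 ⟨hlen, hsq, hnn, hmax⟩).2 hso
  -- final step
  have final : ∀ a b : ℝ, L = a :: a :: List.replicate k b → 0 ≤ b → b ≤ a →
      ∃ a b : ℝ, 0 ≤ b ∧ b ≤ a ∧ 0 < a ∧ L = a :: a :: List.replicate k b := by
    intro a b h hb0 hb
    refine ⟨a, b, hb0, hb, ?_, h⟩
    rcases lt_or_eq_of_le (hb0.trans hb) with ha | ha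
    · exact ha
    · exfalso
      have hb1 : b = 0 := le_antisymm (by rw [ha]; exact hb) hb0
      rw [h, ← ha, hb1] at hsq
      simp at hsq
  have hpos : ∀ a b : ℝ, L = a :: a :: List.replicate k b → k ≠ 0 → b ≤ a →
      ∃ a b : ℝ, 0 ≤ b ∧ b ≤ a ∧ 0 < a ∧ L = a :: a :: List.replicate k b := by
    intro a b h hk hb
    refine final a b h (hnn b ?_) hb
    rw [h]
    simp [List.mem_replicate]
    omega
  match C0, hCT with
  | [], hCT =>
    exfalso
    have h1 : L = T := by rw [hCT]; rfl
    rcases hT1 with h2 | ⟨z, h2⟩
    · rw [h1, h2] at hlen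
      simp at hlen
    · rw [h1, h2] at hlen
      simp at hlen
  | [a], hCT =>
    have h1 : L = a :: a :: T := by rw [hCT]; rfl
    have hTk : T.length = k := by
      rw [h1] at hlen
      simpa using hlen
    have ha0 : 0 ≤ a := hnn a (by rw [h1]; simp)
    rcases hT1 with h2 | ⟨z, h2⟩
    · subst h2
      have hk : k = 0 := by simpa using hTk.symm
      subst hk
      exact final a 0 (by rw [h1]; rfl) le_rfl ha0
    · subst h2
      have hk : k = 1 := by simpa using hTk.symm
      subst hk
      refine hpos a z (by rw [h1]; rfl) one_ne_zero ?_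
      rw [h1] at hso
      exact List.rel_of_pairwise_cons hso (by simp)
  | a :: β :: C, hCT =>
    have h1 : L = a :: a :: β :: β :: (dup C ++ T) := by rw [hCT]; rfl
    have hβa : β ≤ a := by
      rw [h1] at hso
      exact List.rel_of_pairwise_cons hso (by simp)
    have ha0 : 0 ≤ a := hnn a (by rw [h1]; simp)
    have hβ0 : 0 ≤ β := hnn β (by rw [h1]; simp)
    have hle : ∀ c ∈ dup C ++ T, c ≤ β := by
      intro c hc
      rw [h1] at hso
      have h2 := (List.pairwise_cons.1 hso).2
      have h3 := (List.pairwise_cons.1 h2).2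
      exact List.rel_of_pairwise_cons h3 (by simp only [List.mem_cons]; exact Or.inr hc)
    have h0 : ∀ c ∈ dup C ++ T, 0 ≤ c := fun c hc => hnn c (by
      rw [h1]
      simp only [List.mem_cons]
      exact Or.inr (Or.inr (Or.inr (Or.inr hc))))
    -- improvement is impossible
    have imp : ∀ (y : ℝ) (C' T' : List ℝ), y < β → 0 ≤ y → (∀ c ∈ C', 0 ≤ c ∧ c ≤ β) →
        (∀ c ∈ T', 0 ≤ c ∧ c ≤ y) → L.Perm (β :: y :: (T' ++ dup C' ++ [β, a, a])) →
        False := by
      intro y C' T' hy hy0 hC' hT' hp
      have h2 := improve H hr hr3 hy0 hy hβa (fun c hc => (hC' c hc).1) hT' hp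
      have hq0 := qm_nonneg β y
      have hlen' : (a :: a :: qm β y :: qm β y :: (T' ++ dup C' ++ [β])).length = k + 2 := by
        have h3 := hp.length_eq
        rw [hlen] at h3
        simp only [List.length_cons, List.length_append, List.length_nil] at h3 ⊢
        omega
      have hs' : ((a :: a :: qm β y :: qm β y :: (T' ++ dup C' ++ [β])).map
          fun x => x ^ 2).sum = 1 := by
        rw [← hsq, (hp.map fun x => x ^ 2).sum_eq]
        simp only [List.map_cons, List.sum_cons, List.map_append, List.sum_append, qm_sq,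
          List.map_nil, List.sum_nil]
        ring
      have hn1 : ‖vec (k + 2) L‖ = 1 := vec_norm hlen hsq
      have hn2 := vec_norm hlen' hs'
      have hA : Asl r (vec (k + 2) L) 0 ≤
          Asl r (vec (k + 2) (a :: a :: qm β y :: qm β y :: (T' ++ dup C' ++ [β]))) 0 := by
        refine le_of_tendsto_of_tendsto (dens_tendsto hr _ hn1) (dens_tendsto hr _ hn2) ?_
        refine eventually_nhdsWithin_of_forall fun τ hτ => ?_
        simp only
        rw [ofFn_vec hlen, ofFn_vec hlen']
        exact h2 τ hτ
      have hM2 : MaxL r (k + 2) (a :: a :: qm β y :: qm β y :: (T' ++ dup C' ++ [β])) := by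
        refine ⟨hlen', hs', ?_, fun θ hθ => (hmax θ hθ).trans hA⟩
        intro c hc
        simp only [List.mem_cons, List.mem_append, List.not_mem_nil, or_false] at hc
        rcases hc with h | h | h | h | (h | h) | h
        · rw [h]; exact ha0
        · rw [h]; exact ha0
        · rw [h]; exact hq0
        · rw [h]; exact hq0
        · exact (hT' c h).1
        · exact (hC' c (mem_dup.1 h)).1
        · rw [h]; exact hβ0
      have h3 := (OD r (k + 2) _ hr hr2 hM2).1 β
        (odd_list (fun c hc => (hT' c hc).2) hy) (qm β y) (by simp)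
      have h4 := qm_sq β y
      nlinarith
    have hCβ : ∀ c ∈ C, c = β := by
      intro y hyC
      by_contra hne
      have hy1 : y ≤ β := hle y (List.mem_append_left _ (mem_dup.2 hyC))
      have hy0 : 0 ≤ y := h0 y (List.mem_append_left _ (mem_dup.2 hyC))
      have hylt : y < β := lt_of_le_of_ne hy1 hne
      obtain ⟨C', hC'⟩ : ∃ C' : List ℝ, C.Perm (y :: C') := ⟨C.erase y, List.perm_cons_erase hyC⟩
      have hTy : ∀ c ∈ T, c ≤ y := by
        intro c hc
        rw [h1] at hso
        have h2 := (List.pairwise_cons.1 (List.pairwise_cons.1 (List.pairwise_cons.1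
          (List.pairwise_cons.1 hso).2).2).2).2
        exact (List.pairwise_append.1 h2).2.2 y (mem_dup.2 hyC) c hc
      refine imp y C' (T ++ [y]) hylt hy0 ?_ ?_ ?_
      · intro c hc
        have hcC : c ∈ C := hC'.mem_iff.2 (List.mem_cons_of_mem _ hc)
        exact ⟨h0 c (List.mem_append_left _ (mem_dup.2 hcC)),
          hle c (List.mem_append_left _ (mem_dup.2 hcC))⟩
      · intro c hc
        rcases List.mem_append.1 hc with h | h
        · exact ⟨h0 c (List.mem_append_right _ h), hTy c h⟩
        · rw [List.mem_singleton.1 h]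
          exact ⟨hy0, le_rfl⟩
      · rw [h1]
        have p1 := dup_perm hC'
        simp only [dup] at p1
        refine ((((p1.append_right T).cons β).cons β).cons a).cons a |>.trans ?_
        rw [← Multiset.coe_eq_coe]
        simp only [← Multiset.cons_coe, ← Multiset.coe_add, List.cons_append, Multiset.coe_nil]
        simp only [← Multiset.singleton_add, add_zero]
        abel
    have hTβ : ∀ c ∈ T, c = β := by
      intro z hzT
      by_contra hne
      have hz1 : z ≤ β := hle z (List.mem_append_right _ hzT)
      have hz0 : 0 ≤ z := h0 z (List.mem_append_right _ hzT)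
      have hTz : T = [z] := by
        rcases hT1 with h2 | ⟨w, h2⟩
        · rw [h2] at hzT
          simp at hzT
        · rw [h2] at hzT ⊢
          rw [List.mem_singleton.1 hzT]
      refine imp z C [] (lt_of_le_of_ne hz1 hne) hz0 ?_ (by simp) ?_
      · intro c hc
        exact ⟨h0 c (List.mem_append_left _ (mem_dup.2 hc)),
          hle c (List.mem_append_left _ (mem_dup.2 hc))⟩
      · rw [h1, hTz]
        rw [← Multiset.coe_eq_coe]
        simp only [← Multiset.cons_coe, ← Multiset.coe_add, List.nil_append, Multiset.coe_nil]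
        simp only [← Multiset.singleton_add, add_zero]
        abel
    refine final a β ?_ hβ0 hβa
    rw [h1]
    congr 2
    refine List.eq_replicate_iff.2 ⟨?_, ?_⟩
    · rw [h1] at hlen
      simp only [List.length_cons] at hlen ⊢
      omega
    · intro c hc
      simp only [List.mem_cons, List.mem_append] at hc
      rcases hc with h | h | h | h
      · exact h
      · exact h
      · exact hCβ c (mem_dup.1 h)
      · exact hTβ c h

end Pool.Agent.H199.UQ16
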